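import Pool.Agent.N658.TP.Stm3

/-! # The logarithm is operator monotone, second form -/

set_option autoImplicit false

open scoped BigOperators ComplexConjugate Classical InnerProductSpace Matrix ComplexOrder
open scoped Matrix.Norms.L2Operator

noncomputable section

namespace Pool.Agent.N519.TP.LogM

open Pool.Agent.N658.TP

theorem exp_inj {n : Type} [Fintype n] [DecidableEq n] {X Y : Matrix n n ℂ} (hX : X.IsHermitian)
    (hY : Y.IsHermitian) (h : NormedSpace.exp X = NormedSpace.exp Y) : X = Y := by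
  have h1 := CFC.log_exp X (show IsSelfAdjoint X from hX)
  have h2 := CFC.log_exp Y (show IsSelfAdjoint Y from hY)
  rw [← h1, ← h2, h]

theorem qf_smul {n : Type} [Fintype n] (A : Matrix n n ℂ) (c : ℝ) (v : n → ℂ) :
    qf A ((c : ℂ) • v) = c ^ 2 * qf A v := by
  unfold qf Pool.Agent.TH235.PP.ip
  rw [Matrix.mulVec_smul]
  have h : ∑ s, (starRingEnd ℂ) (((c : ℂ) • v) s) * ((c : ℂ) • (A *ᵥ v)) s =
      ((c ^ 2 : ℝ) : ℂ) * ∑ s, (starRingEnd ℂ) (v s) * (A *ᵥ v) s := by
    rw [Finset.mul_sum]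
    refine Finset.sum_congr rfl fun s _ => ?_
    simp only [Pi.smul_apply, smul_eq_mul, map_mul, Complex.conj_ofReal]
    push_cast
    ring
  rw [h, Complex.re_ofReal_mul]

theorem qf_neg {n : Type} [Fintype n] (A : Matrix n n ℂ) (v : n → ℂ) :
    qf (-A) v = -qf A v := by
  unfold qf Pool.Agent.TH235.PP.ip
  rw [Matrix.neg_mulVec]
  simp only [Pi.neg_apply, mul_neg, Finset.sum_neg_distrib, Complex.neg_re]

theorem nsq_smul {n : Type} [Fintype n] (c : ℝ) (v : n → ℂ) :
    nsq ((c : ℂ) • v) = c ^ 2 * nsq v := by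
  unfold nsq Pool.Agent.TH235.PP.normSq
  rw [Finset.mul_sum]
  refine Finset.sum_congr rfl fun s _ => ?_
  rw [Pi.smul_apply, norm_smul, mul_pow, Complex.norm_real, Real.norm_eq_abs, sq_abs]

theorem nsq_nonneg {n : Type} [Fintype n] (v : n → ℂ) : 0 ≤ nsq v := by
  unfold nsq Pool.Agent.TH235.PP.normSq
  positivity

theorem eq_zero_of_nsq {n : Type} [Fintype n] {v : n → ℂ} (h : nsq v = 0) : v = 0 := by
  unfold nsq Pool.Agent.TH235.PP.normSq at h
  rw [Finset.sum_eq_zero_iff_of_nonneg fun s _ => by positivity] at h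
  funext s
  have := h s (Finset.mem_univ s)
  simpa using this

/-- a quadratic form inequality for unit vectors holds for all vectors -/
theorem of_unit {n : Type} [Fintype n] {A B : Matrix n n ℂ}
    (h : ∀ φ : n → ℂ, nsq φ = 1 → qf A φ ≤ qf B φ) (φ : n → ℂ) : qf A φ ≤ qf B φ := by
  by_cases h0 : nsq φ = 0
  · rw [eq_zero_of_nsq h0]
    simp [qf, Pool.Agent.TH235.PP.ip]
  · have hpos : 0 < nsq φ := lt_of_le_of_ne (nsq_nonneg φ) (Ne.symm h0)
    set c : ℝ := √(nsq φ) with hc
    have hcpos : 0 < c := Real.sqrt_pos.2 hpos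
    have hcc : c ^ 2 = nsq φ := Real.sq_sqrt hpos.le
    have h1 : nsq (((c⁻¹ : ℝ) : ℂ) • φ) = 1 := by
      rw [nsq_smul, ← hcc]
      field_simp
    have h2 := h _ h1
    rw [qf_smul, qf_smul] at h2
    exact le_of_mul_le_mul_left h2 (by positivity)

theorem logM (h : StmLog) : StmLogM := by
  intro n _ _ X Y hX hY hXY
  obtain ⟨Λ, hΛ, hexp, hle⟩ := h n (NormedSpace.exp Y) (-X) (Matrix.IsHermitian.exp hY) hX.neg 1
    one_pos (by
      intro φ
      rw [neg_neg, one_mul]
      exact hXY φ)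
  have hΛY : Λ = Y := exp_inj hΛ hY hexp
  subst hΛY
  refine of_unit fun φ hφ => ?_
  have h1 := hle φ hφ
  rw [Real.log_one, qf_neg] at h1
  linarith

end Pool.Agent.N519.TP.LogM
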